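import Pool.Agent.Helper37.KF.Stmts

/-!
# Module 6 of the Komlos programme: `l1` domination with small rows
-/

namespace Pool.Agent.Helper31.KF

open Finset Pool.Agent.Helper37.KF
open scoped Classical

theorem ps_nonneg (x : ℝ) : 0 ≤ ps x := by
  unfold ps
  exact Real.log_nonneg (by nlinarith [sq_nonneg x])

theorem ps_abs (x : ℝ) : ps |x| = ps x := by
  unfold ps
  rw [sq_abs]

theorem ps_zero : ps 0 = 0 := by
  unfold ps
  norm_num

theorem ps_mono {x y : ℝ} (hx : 0 ≤ x) (h : x ≤ y) : ps x ≤ ps y := by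
  unfold ps
  refine Real.log_le_log (by nlinarith [sq_nonneg x]) ?_
  nlinarith

theorem log2_pos : 0 < Real.log 2 := Real.log_pos (by norm_num)

theorem log2_ge : (0.69 : ℝ) ≤ Real.log 2 := by
  have := Real.log_two_gt_d9
  linarith

theorem log2_le : Real.log 2 ≤ 1 := by
  have := Real.log_two_lt_d9
  linarith

/-- `log 2 * x ^ 2 ≤ log (1 + x ^ 2)` for `0 ≤ x ≤ 1` -/
theorem ps_ge_sq {x : ℝ} (h0 : 0 ≤ x) (h1 : x ≤ 1) : Real.log 2 * x ^ 2 ≤ ps x := by
  unfold ps
  have hx2 : x ^ 2 ≤ 1 := by nlinarith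
  have hc : ConcaveOn ℝ (Set.Ioi 0) Real.log := strictConcaveOn_log_Ioi.concaveOn
  have key := hc.2 (show (1 : ℝ) ∈ Set.Ioi 0 by simp) (show (2 : ℝ) ∈ Set.Ioi 0 by simp)
    (show 0 ≤ 1 - x ^ 2 by linarith) (show 0 ≤ x ^ 2 by positivity) (by ring)
  simp only [smul_eq_mul, Real.log_one, mul_zero, zero_add, mul_one] at key
  have e : 1 - x ^ 2 + x ^ 2 * 2 = 1 + x ^ 2 := by ring
  rw [e] at key
  linarith

theorem ps_le_sq (x : ℝ) : ps x ≤ x ^ 2 := by
  unfold ps
  have := Real.log_le_sub_one_of_pos (show 0 < 1 + x ^ 2 by nlinarith [sq_nonneg x])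
  linarith

/-- coefficients of the majorant -/
noncomputable def bb (D : ℝ) : ℕ → ℝ
  | 0 => 2 * (1 + Real.log (1 + D) / Real.log 2)
  | 1 => 2 / (D * Real.log 2)
  | (k + 2) => 2 * (1 / 2) ^ k * (1 + Real.log (1 + D)) / Real.log 2

/-- scales of the majorant -/
noncomputable def kk (D q : ℝ) : ℕ → ℝ
  | 0 => q
  | 1 => D * q
  | (k + 2) => 2 ^ (k + 1) * q

theorem bb_nonneg {D : ℝ} (hD : 1 ≤ D) (k : ℕ) : 0 ≤ bb D k := by
  have h2 := log2_pos
  have hl : 0 ≤ Real.log (1 + D) := Real.log_nonneg (by linarith)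
  match k with
  | 0 => unfold bb; positivity
  | 1 => unfold bb; positivity
  | (k + 2) => unfold bb; positivity

theorem kk_nonneg {D q : ℝ} (hD : 1 ≤ D) (hq : 0 ≤ q) (k : ℕ) : 0 ≤ kk D q k := by
  match k with
  | 0 => unfold kk; positivity
  | 1 => unfold kk; positivity
  | (k + 2) => unfold kk; positivity

/-- the majorant of the cost of a row -/
theorem maj_small (l q t : ℝ) (ht : 1 ≤ t) (hq : 0 < q) (hl : l = q * t ^ 4) :
    ∃ n : ℕ, (∀ x : ℝ, 0 ≤ x →
      2 * ps (l * x) ≤ ∑ k ∈ range n, bb (t ^ 8) k * ps (kk (t ^ 8) q k * x) ∨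
      (x ≤ 1 / q ∧ 2 * (q * x * (1 + Real.log (1 + l ^ 2 / q ^ 2))) ≤
        ∑ k ∈ range n, bb (t ^ 8) k * ps (kk (t ^ 8) q k * x))) ∧
      ∑ k ∈ range n, bb (t ^ 8) k * kk (t ^ 8) q k ≤ 650 * (l / t) := by
  have h2 := log2_pos
  have h2' := log2_ge
  have h2'' := log2_le
  have t0 : 0 < t := by linarith
  set D : ℝ := t ^ 8 with hD
  have hD1 : 1 ≤ D := one_le_pow₀ ht
  have hD0 : 0 < D := by linarith
  have hlD : l ^ 2 / q ^ 2 = D := by
    rw [hl, hD]
    field_simp
  have l0 : 0 < l := by rw [hl]; positivity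
  have hlogD : Real.log D ≤ 8 * (t - 1) := by
    rw [hD, Real.log_pow]
    have := Real.log_le_sub_one_of_pos t0
    push_cast
    linarith
  have hlogD0 : 0 ≤ Real.log D := Real.log_nonneg hD1
  set L : ℝ := 1 + Real.log (1 + D) with hL
  have hL1 : 1 ≤ L := by
    have : 0 ≤ Real.log (1 + D) := Real.log_nonneg (by linarith)
    rw [hL]; linarith
  have hL8 : L ≤ 8 * t := by
    have h1 : Real.log (1 + D) ≤ Real.log (2 * D) := Real.log_le_log (by linarith) (by linarith)
    rw [Real.log_mul (by norm_num) (by positivity)] at h1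
    rw [hL]; linarith
  set K : ℕ := ⌈Real.log D / Real.log 2⌉₊ with hK
  have hKu : (K : ℝ) ≤ Real.log D / Real.log 2 + 1 := (Nat.ceil_lt_add_one (by positivity)).le
  have hKl : Real.log D / Real.log 2 ≤ (K : ℝ) := Nat.le_ceil _
  have hK12 : (K : ℝ) ≤ 12 * t := by
    have : Real.log D / Real.log 2 ≤ 12 * (t - 1) := by
      rw [div_le_iff₀ h2]
      nlinarith
    linarith
  have hDK : D ≤ 2 ^ K := by
    have : Real.log D ≤ Real.log (2 ^ K) := by
      rw [div_le_iff₀ h2] at hKl
      have e : Real.log ((2 : ℝ) ^ K) = K * Real.log 2 := by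
        rw [← Real.rpow_natCast, Real.log_rpow (by norm_num)]
      rw [e]
      exact hKl
    exact (Real.log_le_log_iff hD0 (by positivity)).1 this
  have hterm : ∀ x : ℝ, ∀ j ∈ range (K + 3), bb D j * ps (kk D q j * x) ≤
      ∑ k ∈ range (K + 3), bb D k * ps (kk D q k * x) := by
    intro x j hj
    exact Finset.single_le_sum (f := fun k => bb D k * ps (kk D q k * x))
      (fun k _ => mul_nonneg (bb_nonneg hD1 k) (ps_nonneg _)) hj
  refine ⟨K + 3, ?_, ?_⟩
  · intro x hx
    rcases lt_or_ge (1 / q) x with h | h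
    · left
      refine le_trans ?_ (hterm x 0 (by simp))
      have hqx : 1 < q * x := by
        rw [div_lt_iff₀ hq] at h
        linarith
      have e1 : ps (l * x) ≤ Real.log (1 + D) + ps (q * x) := by
        unfold ps
        rw [← Real.log_mul (by positivity) (by positivity)]
        refine Real.log_le_log (by positivity) ?_
        have : (l * x) ^ 2 = D * (q * x) ^ 2 := by
          rw [← hlD]
          field_simp
        rw [this]
        nlinarith [sq_nonneg (q * x)]
      have e2 : Real.log 2 ≤ ps (q * x) := by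
        unfold ps
        refine Real.log_le_log (by norm_num) ?_
        nlinarith
      have e3 : Real.log (1 + D) ≤ Real.log (1 + D) / Real.log 2 * ps (q * x) := by
        have : 0 ≤ Real.log (1 + D) := Real.log_nonneg (by linarith)
        rw [div_mul_eq_mul_div, le_div_iff₀ h2]
        exact mul_le_mul_of_nonneg_left e2 this
      show 2 * ps (l * x) ≤ 2 * (1 + Real.log (1 + D) / Real.log 2) * ps (q * x)
      nlinarith
    rcases lt_or_ge x (1 / (D * q)) with h' | h'
    · left
      refine le_trans ?_ (hterm x 1 (by simp))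
      have hx1 : D * q * x ≤ 1 := by
        rw [lt_div_iff₀ (by positivity)] at h'
        linarith
      have e1 := ps_ge_sq (x := D * q * x) (by positivity) hx1
      have e2 := ps_le_sq (l * x)
      show 2 * ps (l * x) ≤ 2 / (D * Real.log 2) * ps (D * q * x)
      have e3 : 2 / (D * Real.log 2) * (Real.log 2 * (D * q * x) ^ 2) = 2 * (D * (q * x) ^ 2) := by
        field_simp
      have e4 : (l * x) ^ 2 = D * (q * x) ^ 2 := by
        rw [← hlD]
        field_simp
      have e5 : 2 / (D * Real.log 2) * (Real.log 2 * (D * q * x) ^ 2) ≤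
          2 / (D * Real.log 2) * ps (D * q * x) := mul_le_mul_of_nonneg_left e1 (by positivity)
      rw [e3] at e5
      rw [e4] at e2
      linarith
    · right
      refine ⟨h, ?_⟩
      rw [hlD]
      have hw0 : 0 < q * x := by
        have : 0 < x := lt_of_lt_of_le (by positivity) h'
        positivity
      have hw1 : q * x ≤ 1 := by
        rw [le_div_iff₀ hq] at h
        linarith
      obtain ⟨k, hk1, hk2⟩ := exists_nat_pow_near_of_lt_one hw0 hw1 (y := (1 / 2 : ℝ))
        (by norm_num) (by norm_num)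
      have hwD : 1 / D ≤ q * x := by
        rw [div_le_iff₀ (by positivity)] at h'
        rw [div_le_iff₀ hD0]
        nlinarith
      have hkK : k ≤ K := by
        by_contra hc
        have hc' : K + 1 ≤ k := by omega
        have a1 : (1 / 2 : ℝ) ^ k ≤ (1 / 2) ^ (K + 1) :=
          pow_le_pow_of_le_one (by norm_num) (by norm_num) hc'
        have a2 : (1 / 2 : ℝ) ^ (K + 1) < (1 / 2) ^ K := by
          rw [pow_succ]
          have : (0 : ℝ) < (1 / 2) ^ K := by positivity
          linarith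
        have a3 : (1 / 2 : ℝ) ^ K ≤ 1 / D := by
          rw [one_div_pow]
          exact one_div_le_one_div_of_le hD0 hDK
        linarith
      refine le_trans ?_ (hterm x (k + 2) (by simp; omega))
      show 2 * (q * x * L) ≤ 2 * (1 / 2) ^ k * L / Real.log 2 * ps (2 ^ (k + 1) * q * x)
      have b1 : 1 ≤ 2 ^ (k + 1) * q * x := by
        have : (1 / 2 : ℝ) ^ (k + 1) * 2 ^ (k + 1) = 1 := by
          rw [← mul_pow]; norm_num
        have h3 : (0 : ℝ) < 2 ^ (k + 1) := by positivity
        nlinarith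
      have b2 : Real.log 2 ≤ ps (2 ^ (k + 1) * q * x) := by
        unfold ps
        refine Real.log_le_log (by norm_num) ?_
        nlinarith
      calc 2 * (q * x * L) ≤ 2 * ((1 / 2) ^ k * L) := by
            have := mul_le_mul_of_nonneg_right hk2 (show 0 ≤ L by linarith)
            linarith
        _ = 2 * (1 / 2) ^ k * L / Real.log 2 * Real.log 2 := by field_simp
        _ ≤ _ := mul_le_mul_of_nonneg_left b2 (by positivity)
  · rw [Finset.sum_range_succ', Finset.sum_range_succ']
    have e1 : ∀ k ∈ range (K + 1), bb D (k + 1 + 1) * kk D q (k + 1 + 1) =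
        4 * L * q / Real.log 2 := by
      intro k _
      show 2 * (1 / 2) ^ k * L / Real.log 2 * (2 ^ (k + 1) * q) = _
      have : (1 / 2 : ℝ) ^ k * 2 ^ (k + 1) = 2 := by
        rw [pow_succ, ← mul_assoc, ← mul_pow]; norm_num
      calc 2 * (1 / 2) ^ k * L / Real.log 2 * (2 ^ (k + 1) * q)
          = 2 * ((1 / 2) ^ k * 2 ^ (k + 1)) * L * q / Real.log 2 := by ring
        _ = _ := by rw [this]; ring
    rw [Finset.sum_congr rfl e1, Finset.sum_const, card_range, nsmul_eq_mul]
    have e2 : bb D (0 + 1) * kk D q (0 + 1) = 2 * q / Real.log 2 := by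
      show 2 / (D * Real.log 2) * (D * q) = _
      field_simp
    have e3 : bb D 0 * kk D q 0 ≤ 2 * L * q / Real.log 2 := by
      show 2 * (1 + Real.log (1 + D) / Real.log 2) * q ≤ _
      rw [le_div_iff₀ h2]
      have : (1 + Real.log (1 + D) / Real.log 2) * Real.log 2 ≤ L := by
        rw [add_mul, div_mul_cancel₀ _ h2.ne', hL]
        linarith
      nlinarith
    have e4 : 2 * q / Real.log 2 ≤ 2 * L * q / Real.log 2 := by
      refine div_le_div_of_nonneg_right ?_ h2.le
      nlinarith
    have e5 : ((K + 1 : ℕ) : ℝ) * (4 * L * q / Real.log 2) + 2 * L * q / Real.log 2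
        + 2 * L * q / Real.log 2 = (4 * K + 8) * (L * q) / Real.log 2 := by
      push_cast
      ring
    rw [e2]
    have e6 : (4 * (K : ℝ) + 8) * (L * q) / Real.log 2 ≤ 650 * (l / t) := by
      rw [div_le_iff₀ h2]
      have f1 : (4 * (K : ℝ) + 8) ≤ 56 * t := by linarith
      have f2 : (4 * (K : ℝ) + 8) * (L * q) ≤ 56 * t * (8 * t * q) := by
        refine mul_le_mul f1 (mul_le_mul_of_nonneg_right hL8 hq.le) (by positivity) (by positivity)
      have f3 : l / t = q * t ^ 3 := by
        rw [hl]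
        field_simp
      rw [f3]
      have f4 : t ^ 2 ≤ t ^ 3 := pow_le_pow_right₀ ht (by norm_num)
      have f5 : 650 * (q * t ^ 3) * 0.69 ≤ 650 * (q * t ^ 3) * Real.log 2 :=
        mul_le_mul_of_nonneg_left h2' (by positivity)
      have f6 : q * t ^ 2 ≤ q * t ^ 3 := mul_le_mul_of_nonneg_left f4 hq.le
      nlinarith
    linarith

/-- the majorant of the cost of a row, all cases -/
theorem maj_row (l r : ℝ) (hl : 0 < l) (hr : 0 ≤ r) :
    ∃ (n : ℕ) (b κ : ℕ → ℝ), (∀ k, 0 ≤ b k) ∧ (∀ k, 0 ≤ κ k) ∧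
      (∀ x : ℝ, 0 ≤ x → (r = 0 → x = 0) →
        2 * ps (l * x) ≤ ∑ k ∈ range n, b k * ps (κ k * x) ∨
        (0 < r ∧ x ≤ 1 / Real.sqrt r ∧
          2 * (Real.sqrt r * x * (1 + Real.log (1 + l ^ 2 / r))) ≤
          ∑ k ∈ range n, b k * ps (κ k * x))) ∧
      ∑ k ∈ range n, b k * κ k ≤ 650 * (l * tl r l) := by
  rcases hr.eq_or_lt with h0 | h0
  · refine ⟨0, fun _ => 0, fun _ => 0, fun _ => le_rfl, fun _ => le_rfl, ?_, ?_⟩
    · intro x _ hx
      left
      rw [hx h0.symm, mul_zero, ps_zero]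
      simp
    · rw [Finset.range_zero, Finset.sum_empty, ← h0]
      unfold tl
      positivity
  rcases le_or_gt (l ^ 2) r with h1 | h1
  · refine ⟨1, fun _ => 2, fun _ => l, fun _ => by norm_num, fun _ => hl.le, ?_, ?_⟩
    · intro x _ _
      left
      simp
    · have : tl r l = 1 := by
        unfold tl
        rw [min_eq_left, Real.one_rpow]
        rw [le_div_iff₀ (by positivity)]
        linarith
      rw [this]
      simp
      nlinarith
  · -- the main case
    set D : ℝ := l ^ 2 / r with hD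
    have hD1 : 1 ≤ D := by
      rw [hD, le_div_iff₀ h0]
      linarith
    have hD0 : 0 < D := by linarith
    set t : ℝ := D ^ (1 / 8 : ℝ) with ht
    have ht1 : 1 ≤ t := Real.one_le_rpow hD1 (by norm_num)
    have ht0 : 0 < t := by linarith
    have ht8 : t ^ 8 = D := by
      rw [ht, ← Real.rpow_natCast, ← Real.rpow_mul hD0.le]
      norm_num
    set q : ℝ := Real.sqrt r with hq
    have hq0 : 0 < q := Real.sqrt_pos.2 h0
    have hq2 : q ^ 2 = r := Real.sq_sqrt hr
    have hlq : l = q * t ^ 4 := by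
      have : l ^ 2 = (q * t ^ 4) ^ 2 := by
        rw [mul_pow, ← pow_mul, hq2]
        norm_num
        rw [ht8, hD]
        field_simp
      have := abs_eq_abs.2 (sq_eq_sq_iff_eq_or_eq_neg.1 this)
      rw [abs_of_pos hl, abs_of_pos (by positivity)] at this
      exact this
    obtain ⟨n, h2, h3⟩ := maj_small l q t ht1 hq0 hlq
    refine ⟨n, bb (t ^ 8), kk (t ^ 8) q, bb_nonneg (one_le_pow₀ ht1),
      kk_nonneg (one_le_pow₀ ht1) hq0.le, ?_, ?_⟩
    · intro x hx _
      rcases h2 x hx with h | h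
      · exact Or.inl h
      · refine Or.inr ⟨h0, h.1, ?_⟩
        have := h.2
        rw [hq2] at this
        exact this
    · refine h3.trans ?_
      have h4 : 1 / t ≤ tl r l := by
        unfold tl
        have e : r / l ^ 2 = D⁻¹ := by
          rw [hD, inv_div]
        rw [e, min_eq_right (inv_le_one_of_one_le₀ hD1), Real.inv_rpow hD0.le, one_div]
        refine inv_anti₀ (by positivity) ?_
        exact Real.rpow_le_rpow_of_exponent_le hD1 (by norm_num)
      have : l / t = l * (1 / t) := by ring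
      rw [this]
      have := mul_le_mul_of_nonneg_left h4 hl.le
      linarith

theorem fn_div {V R : Type} [Fintype R] (a : V → R → ℝ) (v : V) (y : R → ℝ) (h : ℝ) :
    fn a v (fun S => y S / h) = fn a v y / h := by
  unfold fn
  rw [Finset.sum_div]
  exact Finset.sum_congr rfl (fun S _ => by ring)

theorem l1d (hr4 : ST_ROUND) (hs5 : ST_SCALE) : ST_L1D := by
  refine ⟨2600, by norm_num, ?_⟩
  intro V R _ _ a α γ lam r s T E hα0 hα1 hγ0 hγ1 hTE hlam hs0 hs1 hr hdom y
  have hr0 : ∀ S, 0 ≤ r S := fun S => le_trans (Finset.sum_nonneg (fun v _ => sq_nonneg _)) (hr S)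
  choose n b κ hb hκ hmaj hsum using fun S => maj_row (lam S) (r S) (hlam S) (hr0 S)
  -- kill the empty rows
  set y' : R → ℝ := fun S => if r S = 0 then 0 else y S with hy'
  have hfn : ∀ v ∈ T ∪ E, fn a v y' = fn a v y := by
    intro v hv
    unfold fn
    refine Finset.sum_congr rfl (fun S _ => ?_)
    by_cases h : r S = 0
    · have h1 : ∑ v ∈ T ∪ E, a v S ^ 2 ≤ 0 := by rw [← h]; exact hr S
      have h2 : a v S ^ 2 ≤ 0 := le_trans (Finset.single_le_sum
        (f := fun v => a v S ^ 2) (fun v _ => sq_nonneg _) hv) h1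
      have h3 : a v S = 0 := by
        have := le_antisymm h2 (sq_nonneg _)
        exact pow_eq_zero_iff (two_ne_zero) |>.1 this
      rw [h3, zero_mul, zero_mul]
    · simp [hy', h]
  have hyle : ∀ S, |y' S| ≤ |y S| := by
    intro S
    by_cases h : r S = 0
    · simp [hy', h]
    · simp [hy', h]
  -- all scales
  have hscale := hs5 E ((S : R) × Fin (n S)) T (fun u => fn a u y')
    (fun p => b p.1 p.2) (fun p => κ p.1 p.2 * |y' p.1|) (fun v => s v * fn a v y')
    (α / 2) (2 * γ) ?_
  · rw [Fintype.sum_sigma] at hscale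
    have e1 : ∑ u : E, |fn a (u : V) y'| = ∑ u ∈ E, |fn a u y| := by
      rw [← Finset.sum_coe_sort E (fun u => |fn a u y|)]
      exact Finset.sum_congr rfl (fun u _ => by
        rw [hfn u (Finset.mem_union_right _ u.2)])
    have e2 : ∑ v : T, |s (v : V) * fn a (v : V) y'| = ∑ v ∈ T, s v * |fn a v y| := by
      rw [← Finset.sum_coe_sort T (fun v => s v * |fn a v y|)]
      exact Finset.sum_congr rfl (fun v _ => by
        rw [hfn v (Finset.mem_union_left _ v.2), abs_mul, abs_of_nonneg (hs0 v)])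
    rw [e1, e2] at hscale
    have e3 : ∑ S, ∑ k : Fin (n S), b S k * abs (κ S k * |y' S|) ≤
        650 * ∑ S, lam S * tl (r S) (lam S) * |y S| := by
      rw [Finset.mul_sum]
      refine Finset.sum_le_sum (fun S _ => ?_)
      have f1 : ∑ k : Fin (n S), b S k * abs (κ S k * |y' S|)
          = (∑ k ∈ range (n S), b S k * κ S k) * |y' S| := by
        rw [Finset.sum_mul, Finset.sum_range (fun k => b S k * κ S k * |y' S|)]
        refine Finset.sum_congr rfl (fun k _ => ?_)
        rw [abs_mul, abs_abs, abs_of_nonneg (hκ S k)]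
        ring
      rw [f1]
      have f2 : 0 ≤ lam S * tl (r S) (lam S) := by
        have := hlam S
        unfold tl
        have h3 := hr0 S
        positivity
      calc (∑ k ∈ range (n S), b S k * κ S k) * |y' S|
          ≤ (650 * (lam S * tl (r S) (lam S))) * |y' S| :=
            mul_le_mul_of_nonneg_right (hsum S) (abs_nonneg _)
        _ ≤ (650 * (lam S * tl (r S) (lam S))) * |y S| :=
            mul_le_mul_of_nonneg_left (hyle S) (by positivity)
        _ = _ := by ring
    linarith
  · intro h hh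
    set x : R → ℝ := fun S => y' S / h with hx
    have hxa : ∀ S, |x S| = |y' S| / h := fun S => by
      rw [hx]; simp only; rw [abs_div, abs_of_pos hh]
    set cost : R → ℝ := fun S => ∑ k ∈ range (n S), b S k * ps (κ S k * |x S|) with hcost
    set A : Finset R := Finset.univ.filter (fun S => ¬ (2 * ps (lam S * |x S|) ≤ cost S)) with hA
    have hz : ∀ S, r S = 0 → |x S| = 0 := by
      intro S h0
      simp [hx, hy', h0]
    have hAin : ∀ S ∈ A, 0 < r S ∧ |x S| ≤ 1 / Real.sqrt (r S) ∧
        2 * (Real.sqrt (r S) * |x S| * (1 + Real.log (1 + lam S ^ 2 / r S))) ≤ cost S := by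
      intro S hS
      rcases hmaj S |x S| (abs_nonneg _) (hz S) with h1 | h1
      · exact absurd h1 (by simpa [hA] using hS)
      · exact h1
    have hAout : ∀ S ∈ Aᶜ, 2 * ps (lam S * x S) ≤ cost S := by
      intro S hS
      have h1 : 2 * ps (lam S * |x S|) ≤ cost S := by
        by_contra hc
        have hm : S ∈ A := Finset.mem_filter.2 ⟨Finset.mem_univ S, hc⟩
        exact (Finset.mem_compl.1 hS) hm
      have h2 : ps (lam S * |x S|) = ps (lam S * x S) := by
        rw [← ps_abs (lam S * x S), abs_mul, abs_of_pos (hlam S)]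
      rw [← h2]
      exact h1
    have key := hr4 V R a α γ lam r s T E A hα0 hα1 hγ0 hγ1 hTE hlam hs0 hs1
      (fun S hS => (hAin S hS).1) (fun S _ => hr S) hdom x (fun S hS => (hAin S hS).2.1)
    have hfx : ∀ v, fn a v x = fn a v y' / h := fun v => fn_div a v y' h
    have e1 : ∑ i : E, ph (fn a (i : V) y' / h) = ∑ u ∈ E, ph (fn a u x) := by
      rw [← Finset.sum_coe_sort E (fun u => ph (fn a u x))]
      exact Finset.sum_congr rfl (fun u _ => by rw [hfx])
    have e2 : ∑ l : T, ph (s (l : V) * fn a (l : V) y' / h) = ∑ v ∈ T, ph (s v * fn a v x) := by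
      rw [← Finset.sum_coe_sort T (fun v => ph (s v * fn a v x))]
      exact Finset.sum_congr rfl (fun v _ => by rw [hfx, mul_div_assoc])
    rw [e1, e2, Fintype.sum_sigma]
    have e3 : ∑ S, ∑ k : Fin (n S), b S k * ps (κ S k * |y' S| / h) = ∑ S, cost S := by
      refine Finset.sum_congr rfl (fun S _ => ?_)
      rw [hcost]
      simp only
      rw [Finset.sum_range (fun k => b S k * ps (κ S k * |x S|))]
      refine Finset.sum_congr rfl (fun k _ => ?_)
      rw [hxa, mul_div_assoc]
    have e4 : 2 * ∑ S ∈ Aᶜ, ps (lam S * x S)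
        + 2 * ∑ S ∈ A, Real.sqrt (r S) * |x S| * (1 + Real.log (1 + lam S ^ 2 / r S))
        ≤ ∑ S, cost S := by
      rw [← Finset.sum_compl_add_sum A cost, Finset.mul_sum, Finset.mul_sum]
      exact add_le_add (Finset.sum_le_sum hAout)
        (Finset.sum_le_sum (fun S hS => (hAin S hS).2.2))
    have e5 : ∑ S, ∑ k : Fin (n S), b S k * ps (κ S k * |y' S| / h) = ∑ S, cost S := e3
    calc α / 2 * ∑ u ∈ E, ph (fn a u x)
        ≤ 2 * ∑ S ∈ Aᶜ, ps (lam S * x S)
          + 2 * ∑ S ∈ A, Real.sqrt (r S) * |x S| * (1 + Real.log (1 + lam S ^ 2 / r S))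
          + 2 * γ * ∑ v ∈ T, ph (s v * fn a v x) := key
      _ ≤ ∑ S, cost S + 2 * γ * ∑ v ∈ T, ph (s v * fn a v x) := by linarith
      _ = _ := by rw [← e3]

end Pool.Agent.Helper31.KF
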